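import Pool.Agent.H25.HK.Targets

/-!
# The Lindelof hypothesis on average over the unramified Hecke characters of a number field:
definitions
-/

set_option autoImplicit false

open NumberField NumberField.InfinitePlace NumberField.Units
  NumberField.Units.dirichletUnitTheorem MeasureTheory Set Filter Complex
open scoped nonZeroDivisors ENNReal

namespace Pool.Agent.H23.LA

open Pool.Agent.H25.HK

/-! ### Positive definite forms -/

section Forms

variable {ι : Type} [Fintype ι]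

/-- the value of the form at an integral vector -/
noncomputable def qz (S : Matrix ι ι ℝ) (k : ι → ℤ) : ℝ := qf S (fun i => (k i : ℝ))

/-- the number of integral vectors of length at most `r` -/
noncomputable def cnt (S : Matrix ι ι ℝ) (r : ℝ) : ℕ := Nat.card {k : ι → ℤ // qz S k ≤ r ^ 2}

/-- the theta series, normalised such that `T` scales the volume -/
noncomputable def Fs (S : Matrix ι ι ℝ) (T : ℝ) : ℝ :=
  ∑' k : ι → ℤ, Real.exp (-Real.pi * (T ^ ((2 : ℝ) / Fintype.card ι) * qz S k))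

/-- the theta series with a complex variable -/
noncomputable def Th (S : Matrix ι ι ℝ) (w : ℂ) : ℂ :=
  ∑' k : ι → ℤ, cexp (-Real.pi * w * (qz S k : ℂ))

/-- the completed Epstein zeta function at `1 + κ` -/
noncomputable def AF (κ : ℝ) (S : Matrix ι ι ℝ) : ℝ := ∫ T in Ioi (0 : ℝ), (Fs S T - 1) * T ^ κ

/-- the completed Epstein zeta function -/
noncomputable def Es (S S' : Matrix ι ι ℝ) (s : ℂ) : ℂ :=
  (∫ T in Ioi (1 : ℝ), ((Fs S T - 1 : ℝ) : ℂ) * (T : ℂ) ^ (s - 1)) +
    (∫ T in Ioi (1 : ℝ), ((Fs S' T - 1 : ℝ) : ℂ) * (T : ℂ) ^ (-s)) - 1 / s - 1 / (1 - s)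

end Forms

/-! ### Number fields -/

section NF

variable (K : Type) [Field K] [NumberField K]

/-- An everywhere unramified unitary Hecke character of `K`: a multiplicative function `ψ` on the
ideals, of absolute value `1` at the nonzero ideals, with
`ψ((a)) = ∏_v |a|_v ^ (i e_v ν_v)` for `a ≠ 0` (`e_v = 1` for real and `2` for complex places `v`),
normalised by `∑ e_v ν_v = 0`. -/
structure UHC where
  ψ : Ideal (𝓞 K) → ℂ
  ν : InfinitePlace K → ℝ
  map_top : ψ ⊤ = 1
  map_mul : ∀ I J, ψ (I * J) = ψ I * ψ J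
  map_bot : ψ ⊥ = 0
  norm_one : ∀ I, I ≠ ⊥ → ‖ψ I‖ = 1
  princ : ∀ a : 𝓞 K, a ≠ 0 →
    ψ (Ideal.span {a}) = cexp ((∑ v, (v.mult : ℝ) * ν v * Real.log (v (a : K)) : ℝ) * I)
  norm_zero : ∑ v, (v.mult : ℝ) * ν v = 0

variable {K}

/-- the Dirichlet series -/
noncomputable def UHC.series (χ : UHC K) (s : ℂ) : ℂ :=
  ∑' I : {I : Ideal (𝓞 K) // I ≠ ⊥}, χ.ψ I.1 * (Ideal.absNorm I.1 : ℂ) ^ (-s)

variable (K)

/-- the characters with frequencies at most `R` -/
def fam (R : ℝ) : Set (UHC K) := {χ | ∀ v, |χ.ν v| ≤ R}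

variable {K}

/-- the phase `∏_v |x|_v ^ (i e_v ν_v)` -/
noncomputable def ph (ν : InfinitePlace K → ℝ) (x : K) : ℂ :=
  cexp ((∑ v, (v.mult : ℝ) * ν v * Real.log (v x) : ℝ) * I)

open scoped Classical in
/-- the linear form on the logarithmic space -/
noncomputable def pr (ν : InfinitePlace K → ℝ) (z : logSpace K) : ℝ :=
  ∑ w : {w : InfinitePlace K // w ≠ w₀}, (ν w.1 - ν w₀) * z w

open scoped Classical in
/-- the character `exp(-i pr(z))` -/
noncomputable def ec (ν : InfinitePlace K → ℝ) (z : logSpace K) : ℂ :=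
  cexp (-((pr ν z : ℝ) : ℂ) * I)

/-- `φ` extends `χ` to the fractional ideals -/
structure IsExt (χ : UHC K) (φ : FI K → ℂ) : Prop where
  map_mul : ∀ M N, φ (M * N) = φ M * φ N
  norm_one : ∀ M, M ≠ 0 → ‖φ M‖ = 1
  ideal : ∀ I : Ideal (𝓞 K), φ (I : FI K) = χ.ψ I
  span : ∀ x : K, x ≠ 0 → φ (FractionalIdeal.spanSingleton (𝓞 K)⁰ x) = ph χ.ν x

variable (K)

/-- `M` is a system of representatives of the ideal classes, and so is its dual -/
def Reps {ι : Type} (M : ι → FI K) : Prop :=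
  (∀ c, M c ≠ 0) ∧ (∀ I : Ideal (𝓞 K), I ≠ ⊥ → ∃! c, Pri K (M c) I) ∧
    ∀ I : Ideal (𝓞 K), I ≠ ⊥ → ∃! c, Pri K (du K (M c)) I

/-- the normalised theta function of the lattice `(M, z)` -/
noncomputable def FT (M : FI K) (z : logSpace K) (T : ℝ) : ℝ :=
  th K M (yc K (Real.log (T / cv K M)) z)

/-- the completed Epstein zeta function of `(M, z)` at `1 + κ` -/
noncomputable def AK (κ : ℝ) (M : FI K) (z : logSpace K) : ℝ :=
  ∫ T in Ioi (0 : ℝ), (FT K M z T - 1) * T ^ κ

/-- the entire part of the completed Epstein zeta function of `(M, z)` -/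
noncomputable def E0 (M : FI K) (z : logSpace K) (s : ℂ) : ℂ :=
  (∫ T in Ioi (1 : ℝ), ((FT K M z T - 1 : ℝ) : ℂ) * (T : ℂ) ^ (s - 1)) +
    (∫ T in Ioi (1 : ℝ), ((FT K (du K M) (-z) T - 1 : ℝ) : ℂ) * (T : ℂ) ^ (-s))

/-- the completed Epstein zeta function of `(M, z)` -/
noncomputable def EK (M : FI K) (z : logSpace K) (s : ℂ) : ℂ := E0 K M z s - 1 / s - 1 / (1 - s)

open scoped Classical in
/-- the Gamma factor -/
noncomputable def gν (ν : InfinitePlace K → ℝ) (s : ℂ) : ℂ :=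
  ∏ v : InfinitePlace K, if v.IsReal then Gammaℝ (s - ν v * I) else Gammaℂ (s - ν v * I)

/-- the constant `w 2^(-r₁-r₂)` -/
noncomputable def cw : ℝ :=
  (torsionOrder K : ℝ) * ((2 : ℝ) ^ (nrRealPlaces K + nrComplexPlaces K))⁻¹

variable {K}

open scoped Classical in
/-- the completed `L`-function -/
noncomputable def Lam {ι : Type} [Fintype ι] (M : ι → FI K) (χ : UHC K) (φ : FI K → ℂ) (s : ℂ) :
    ℂ :=
  ∑ c, (φ (M c))⁻¹ * ∫ z in Fd K, ec χ.ν z * EK K (M c) z s

end NF

end Pool.Agent.H23.LA
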