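import Pool.Agent.H23.LA.Defs

/-!
# The Lindelof hypothesis on average over the unramified Hecke characters of a number field:
targets
-/

set_option autoImplicit false

open NumberField NumberField.InfinitePlace NumberField.Units
  NumberField.Units.dirichletUnitTheorem MeasureTheory Set Filter Complex
open scoped nonZeroDivisors ENNReal

namespace Pool.Agent.H23.LA

open Pool.Agent.H25.HK

/-! ### Part A: lattices -/

/-- (PK) packing in a subspace. -/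
def T_PK : Prop :=
  ∀ (E : Type) [NormedAddCommGroup E] [NormedSpace ℝ E] [FiniteDimensional ℝ E]
    (W : Submodule ℝ E) (s : Finset E) (a r : ℝ), 0 < a → 0 ≤ r →
    (∀ x ∈ s, x ∈ W ∧ ‖x‖ ≤ r) → (∀ x ∈ s, ∀ y ∈ s, x ≠ y → a ≤ ‖x - y‖) →
    (s.card : ℝ) ≤ (1 + 2 * r / a) ^ Module.finrank ℝ W

/-- (DB) finiteness and doubling. -/
def T_DB : Prop :=
  ∀ (ι : Type) [Fintype ι] [DecidableEq ι] (S : Matrix ι ι ℝ), S.PosDef →
    (∀ r : ℝ, {k : ι → ℤ | qz S k ≤ r ^ 2}.Finite) ∧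
    ∀ r t : ℝ, 0 < r → 0 ≤ t →
      (cnt S (t * r) : ℝ) ≤ (2 * t + 1) ^ Fintype.card ι * cnt S r

/-- (DI) the dichotomy: short vectors of a lattice and of its dual are orthogonal. -/
def T_DI : Prop :=
  ∀ (ι : Type) [Fintype ι] [DecidableEq ι] (S : Matrix ι ι ℝ), S.PosDef →
    ∀ r a b : ℝ, 0 < r → 0 < a → 0 < b → (∀ k : ι → ℤ, k ≠ 0 → a ^ 2 ≤ qz S k) →
    (∀ k : ι → ℤ, k ≠ 0 → b ^ 2 ≤ qz S⁻¹ k) →
    (cnt S r : ℝ) ≤ (1 + 2 * r / a) ^ ((Fintype.card ι : ℝ) / 2) ∨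
    (cnt S⁻¹ (1 / (2 * r)) : ℝ) ≤ (1 + 1 / (r * b)) ^ ((Fintype.card ι : ℝ) / 2)

/-- (T1) theta series are bounded by counts. -/
def T_T1 : Prop :=
  ∀ n : ℕ, ∃ C : ℝ, ∀ (ι : Type) [Fintype ι] [DecidableEq ι] (S : Matrix ι ι ℝ), S.PosDef →
    Fintype.card ι = n → ∀ r : ℝ, 0 < r →
    ∑' k : ι → ℤ, Real.exp (-Real.pi * (qz S k / r ^ 2)) ≤ C * cnt S r

/-- (T2) theta series below the minimum. -/
def T_T2 : Prop :=
  ∀ (n : ℕ) (B : ℝ), ∃ C : ℝ, ∀ (ι : Type) [Fintype ι] [DecidableEq ι] (S : Matrix ι ι ℝ),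
    S.PosDef → Fintype.card ι = n → ∀ r a : ℝ, 0 < r → r ≤ a →
    (∀ k : ι → ℤ, k ≠ 0 → a ^ 2 ≤ qz S k) →
    ∑' k : ι → ℤ, Real.exp (-Real.pi * (qz S k / r ^ 2)) - 1 ≤ C * (r / a) ^ B

/-- (PT) properties of the theta series. -/
def T_PT : Prop :=
  ∀ (ι : Type) [Fintype ι] [DecidableEq ι] [Nonempty ι] (S : Matrix ι ι ℝ), S.PosDef →
    (∀ u : ℝ, 0 < u → Summable (fun k : ι → ℤ => Real.exp (-Real.pi * (u * qz S k)))) ∧
    (∀ T : ℝ, 0 < T → 1 ≤ Fs S T) ∧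
    (S.det = 1 → ∀ T : ℝ, 0 < T → Fs S (1 / T) = T * Fs S⁻¹ T) ∧
    ContinuousOn (Fs S) (Ioi 0) ∧ AntitoneOn (Fs S) (Ioi 0) ∧
    (∀ κ : ℝ, IntegrableOn (fun T => (Fs S T - 1) * T ^ κ) (Ioi 1)) ∧
    (∀ κ : ℝ, 0 < κ → IntegrableOn (fun T => (Fs S T - 1) * T ^ κ) (Ioi 0)) ∧
    S⁻¹.PosDef ∧ (S.det = 1 → S⁻¹.det = 1) ∧ S⁻¹⁻¹ = S

/-- (LA) lower bounds for the Epstein zeta function. -/
def T_LA : Prop :=
  ∀ (n : ℕ) (κ : ℝ), 0 < n → 0 < κ → ∃ c : ℝ, 0 < c ∧ ∀ (ι : Type) [Fintype ι] [DecidableEq ι]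
    (S : Matrix ι ι ℝ), S.PosDef → S.det = 1 → Fintype.card ι = n →
    c ≤ AF κ S ∧ ∀ k : ι → ℤ, k ≠ 0 → c * (qz S k) ^ (-((n : ℝ) * (1 + κ) / 2)) ≤ AF κ S

/-- (FB) the pointwise bound for the theta series. -/
def T_FB : Prop :=
  ∀ (n : ℕ) (κ : ℝ), 0 < n → 0 < κ → κ ≤ 1 → ∃ C : ℝ, ∀ (ι : Type) [Fintype ι] [DecidableEq ι]
    (S : Matrix ι ι ℝ), S.PosDef → S.det = 1 → Fintype.card ι = n → ∀ T : ℝ, 1 ≤ T →
    Fs S T - 1 ≤ C * T ^ (-((1 + κ) / 2)) * Real.sqrt (AF κ S + AF κ S⁻¹)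

/-- (CP) rotation of the path of integration. -/
def T_CP : Prop :=
  ∀ (n : ℕ) (ι : Type) [Fintype ι] [DecidableEq ι] (S : Matrix ι ι ℝ), S.PosDef → S.det = 1 →
    Fintype.card ι = n → 0 < n → ∀ φ : ℝ, |φ| < Real.pi / 2 →
    (∀ T : ℝ, 0 < T → ‖Th S ((T ^ ((2 : ℝ) / n) : ℝ) * cexp (φ * I)) - 1‖ ≤
      Fs S (T * Real.cos φ ^ ((n : ℝ) / 2)) - 1) ∧
    ∀ s : ℂ, s ≠ 0 → s ≠ 1 → Es S S⁻¹ s =
      cexp (φ * n * s / 2 * I) * (∫ T in Ioi (1 : ℝ),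
        (Th S ((T ^ ((2 : ℝ) / n) : ℝ) * cexp (φ * I)) - 1) * (T : ℂ) ^ (s - 1)) +
      cexp (-(φ * n * (1 - s) / 2) * I) * (∫ T in Ioi (1 : ℝ),
        (Th S⁻¹ ((T ^ ((2 : ℝ) / n) : ℝ) * cexp (-φ * I)) - 1) * (T : ℂ) ^ (-s)) -
      cexp (φ * n * s / 2 * I) / s - cexp (-(φ * n * (1 - s) / 2) * I) / (1 - s)

/-- (EB) the square of the Epstein zeta function near the critical line is bounded by the values
of the Epstein zeta functions of the lattice and of its dual at `1 + κ`. -/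
def T_EB : Prop :=
  ∀ n : ℕ, 0 < n → ∃ A : ℝ, ∀ κ : ℝ, 0 < κ → κ ≤ 1 → ∃ C : ℝ, ∀ (ι : Type) [Fintype ι]
    [DecidableEq ι] (S : Matrix ι ι ℝ), S.PosDef → S.det = 1 → Fintype.card ι = n → ∀ s : ℂ,
    |s.re - 1 / 2| ≤ κ / 4 → ‖Es S S⁻¹ s‖ ^ 2 ≤
      C * (1 + |s.im|) ^ A * Real.exp (-(Real.pi * n * |s.im| / 2)) * (AF κ S + AF κ S⁻¹)

/-! ### Part B: number fields -/

/-- (NS) the lattice `(M, z)` as a positive definite matrix. -/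
def T_NS : Prop :=
  ∀ (K : Type) [Field K] [NumberField K] (M : FI K) (z : logSpace K), M ≠ 0 →
    ∃ (ι : Type) (_ : Fintype ι) (_ : DecidableEq ι) (S : Matrix ι ι ℝ), S.PosDef ∧ S.det = 1 ∧
      Fintype.card ι = Module.finrank ℚ K ∧ ∀ T : ℝ, 0 < T →
        Fs S T = FT K M z T ∧ Fs S⁻¹ T = FT K (du K M) (-z) T

/-- (BJ) the nonzero elements of `M` are the products of a unit and a generator. -/
def T_BJ : Prop :=
  ∀ (K : Type) [Field K] [NumberField K] (M : FI K), M ≠ 0 →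
    ∃ X : {I : Ideal (𝓞 K) // Pri K M I} → K,
      (∀ I, X I ≠ 0 ∧ (I.1 : FI K) * M = FractionalIdeal.spanSingleton (𝓞 K)⁰ (X I) ∧
        ((|Algebra.norm ℚ (X I)| : ℚ) : ℝ) =
          (Ideal.absNorm I.1 : ℝ) * (FractionalIdeal.absNorm M : ℝ)) ∧
      (∀ I (u : (𝓞 K)ˣ), (u : K) * X I ∈ M) ∧
      ∀ x ∈ M, x ≠ 0 → ∃! p : {I : Ideal (𝓞 K) // Pri K M I} × (𝓞 K)ˣ, x = (p.2 : K) * X p.1

/-- (EX) extension to the fractional ideals. -/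
def T_EX : Prop :=
  ∀ (K : Type) [Field K] [NumberField K] (χ : UHC K), ∃ φ : FI K → ℂ, IsExt χ φ

/-- (PU) the phases of units and the linear form. -/
def T_PU : Prop :=
  ∀ (K : Type) [Field K] [NumberField K],
    (∀ χ : UHC K, ∀ u : (𝓞 K)ˣ, ph χ.ν (u : K) = 1) ∧
    (∀ (ν : InfinitePlace K → ℝ) (u : (𝓞 K)ˣ), ∑ v, (v.mult : ℝ) * ν v = 0 →
      ph ν (u : K) = cexp ((pr ν (logEmbedding K (Additive.ofMul u)) : ℝ) * I)) ∧
    (∀ (ν : InfinitePlace K → ℝ), ∑ v, (v.mult : ℝ) * ν v = 0 → ∀ (τ : ℝ) (z : logSpace K),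
      pr ν z = (∑ v, (v.mult : ℝ) * ν v * yc K τ z v) / 2) ∧
    (∀ (ν : InfinitePlace K → ℝ), ∑ v, (v.mult : ℝ) * ν v = 0 → (∀ z, pr ν z = 0) → ν = 0) ∧
    (∀ χ : UHC K, ∀ z, ∀ l ∈ unitLattice K, ec χ.ν (z + l) = ec χ.ν z) ∧
    ∀ (ν : InfinitePlace K → ℝ), Continuous (ec (K := K) ν) ∧ ∀ z, ‖ec ν z‖ = 1

open scoped Classical in
/-- (VR) the volume of the fundamental domain is the regulator, the number of representatives is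
the class number. -/
def T_VR : Prop :=
  ∀ (K : Type) [Field K] [NumberField K], volume.real (Fd K) = regulator K ∧
    ∀ (ι : Type) [Fintype ι] (M : ι → FI K), Reps K M → Fintype.card ι = classNumber K

open scoped Classical in
/-- (GT) the twisted Gamma integral. -/
def T_GT : Prop :=
  ∀ (K : Type) [Field K] [NumberField K] (x : K) (ν : InfinitePlace K → ℝ) (s : ℂ), x ≠ 0 →
    ∑ v, (v.mult : ℝ) * ν v = 0 → 0 < s.re →
    Integrable (fun p : ℝ × logSpace K =>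
      (Real.exp (-Real.pi * qK K (yc K p.1 p.2) x) : ℂ) * (cexp (s * p.1) * ec ν p.2)) ∧
    ∫ p : ℝ × logSpace K,
        (Real.exp (-Real.pi * qK K (yc K p.1 p.2) x) : ℂ) * (cexp (s * p.1) * ec ν p.2) =
      ((2 : ℂ) ^ (nrRealPlaces K + nrComplexPlaces K))⁻¹ * gν K ν s *
        (((|Algebra.norm ℚ x| : ℚ) : ℝ) : ℂ) ^ (-s) * ph ν x

open scoped Classical in
/-- (MT) unfolding. -/
def T_MT : Prop :=
  ∀ (K : Type) [Field K] [NumberField K] (χ : UHC K) (φ : FI K → ℂ) (M : FI K), IsExt χ φ →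
    M ≠ 0 → ∀ s : ℂ, 1 < s.re →
    ∫ z in Fd K, ec χ.ν z * (∫ T in Ioi (0 : ℝ), ((FT K M z T - 1 : ℝ) : ℂ) * (T : ℂ) ^ (s - 1)) =
      (cw K : ℂ) * ((|(discr K : ℝ)| : ℝ) : ℂ) ^ (s / 2) * gν K χ.ν s * φ M *
        ∑' I : {I : Ideal (𝓞 K) // Pri K M I}, χ.ψ I.1 * (Ideal.absNorm I.1 : ℂ) ^ (-s)

/-- (DE) decay and continuity of the normalised theta function. -/
def T_DE : Prop :=
  ∀ (K : Type) [Field K] [NumberField K] (M : FI K), M ≠ 0 →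
    ContinuousOn (fun p : ℝ × logSpace K => FT K M p.2 p.1) (Ioi 0 ×ˢ univ) ∧
    (∀ z : logSpace K, ∀ l ∈ unitLattice K, ∀ T, FT K M (z + l) T = FT K M z T) ∧
    ∀ B : ℝ, ∃ C c : ℝ, 0 < c ∧ ∀ T : ℝ, 1 ≤ T → ∀ z : logSpace K, (∀ w, |z w| ≤ B) →
      |FT K M z T - 1| ≤ C * Real.exp (-c * T ^ ((2 : ℝ) / Module.finrank ℚ K))

open scoped Classical in
/-- (AN) analyticity. -/
def T_AN : Prop :=
  ∀ (K : Type) [Field K] [NumberField K] (M : FI K), M ≠ 0 →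
    (∀ (z : logSpace K) (s : ℂ), 1 < s.re →
      EK K M z s = ∫ T in Ioi (0 : ℝ), ((FT K M z T - 1 : ℝ) : ℂ) * (T : ℂ) ^ (s - 1)) ∧
    (∀ s : ℂ, Continuous (fun z => E0 K M z s)) ∧
    ∀ ν : InfinitePlace K → ℝ, Differentiable ℂ (fun s => ∫ z in Fd K, ec ν z * E0 K M z s)

open scoped Classical in
/-- (OR) orthogonality. -/
def T_OR : Prop :=
  ∀ (K : Type) [Field K] [NumberField K] (ι : Type) [Fintype ι] (M : ι → FI K), Reps K M →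
    ∀ (χ χ' : UHC K) (φ φ' : FI K → ℂ), IsExt χ φ → IsExt χ' φ' →
    (∫ z in Fd K, ec χ.ν z * (starRingEnd ℂ) (ec χ'.ν z) = 0 ∨
      ∑ c, (φ (M c))⁻¹ * (starRingEnd ℂ) (φ' (M c))⁻¹ = 0) ∨ χ = χ'

open scoped Classical in
/-- (BE) the inequality of Bessel. -/
def T_BE : Prop :=
  ∀ (K : Type) [Field K] [NumberField K] (ι : Type) [Fintype ι] (M : ι → FI K), Reps K M →
    ∀ (X : Finset (UHC K)) (Φ : UHC K → FI K → ℂ), (∀ χ ∈ X, IsExt χ (Φ χ)) →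
    ∀ f : ι → logSpace K → ℂ, (∀ c, Continuous (f c)) →
    ∑ χ ∈ X, ‖∑ c, (Φ χ (M c))⁻¹ * ∫ z in Fd K, ec χ.ν z * f c z‖ ^ 2 ≤
      (Fintype.card ι * volume.real (Fd K)) * ∑ c, ∫ z in Fd K, ‖f c z‖ ^ 2

open scoped Classical in
/-- (A1) the mean value of the Epstein zeta function at `1 + κ`. -/
def T_A1 : Prop :=
  ∀ (n : ℕ) (κ : ℝ), 0 < κ → ∃ C : ℝ, ∀ (K : Type) [Field K] [NumberField K],
    Module.finrank ℚ K = n → ∀ (ι : Type) [Fintype ι] (M : ι → FI K), Reps K M →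
    (∀ c, IntegrableOn (AK K κ (M c)) (Fd K) ∧
      IntegrableOn (fun z => AK K κ (du K (M c)) (-z)) (Fd K)) ∧
    ∑ c, ∫ z in Fd K, AK K κ (M c) z ≤ C * cw K * |(discr K : ℝ)| ^ ((1 + κ) / 2) ∧
    ∑ c, ∫ z in Fd K, AK K κ (du K (M c)) (-z) ≤ C * cw K * |(discr K : ℝ)| ^ ((1 + κ) / 2)

/-- (GA) the lower bound for the Gamma factor. -/
def T_GL : Prop :=
  ∀ (n : ℕ) (R : ℝ), ∃ A c : ℝ, 0 < c ∧ ∀ (K : Type) [Field K] [NumberField K],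
    Module.finrank ℚ K = n → ∀ ν : InfinitePlace K → ℝ, (∀ v, |ν v| ≤ R) → ∀ s : ℂ,
    1 / 4 ≤ s.re → s.re ≤ 3 / 4 →
      c * (1 + |s.im|) ^ (-A) * Real.exp (-(Real.pi * n * |s.im| / 4)) ≤ ‖gν K ν s‖

/-- (GD) the inverse of the Gamma factor is entire, and the Gamma factor does not vanish for
`Re s > 0`. -/
def T_GD : Prop :=
  ∀ (K : Type) [Field K] [NumberField K] (ν : InfinitePlace K → ℝ),
    Differentiable ℂ (fun s => (gν K ν s)⁻¹) ∧ (∀ s : ℂ, 0 < s.re → gν K ν s ≠ 0)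

/-- (SE) the series converge absolutely; a bound for the trivial character. -/
def T_SE : Prop :=
  (∀ (K : Type) [Field K] [NumberField K] (s : ℂ), 1 < s.re →
    Summable (fun I : {I : Ideal (𝓞 K) // I ≠ ⊥} => ‖(Ideal.absNorm I.1 : ℂ) ^ (-s)‖)) ∧
  (∀ (n : ℕ) (σ : ℝ), 1 < σ → ∃ C : ℝ, ∀ (K : Type) [Field K] [NumberField K],
    Module.finrank ℚ K = n →
    ∑' I : {I : Ideal (𝓞 K) // I ≠ ⊥}, (Ideal.absNorm I.1 : ℝ) ^ (-σ) ≤ C) ∧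
  ∀ (K : Type) [Field K] [NumberField K], ∃ σ : ℝ, 1 < σ ∧ ∀ χ : UHC K,
    1 / 2 ≤ ‖χ.series σ‖

/-- (C1) frequencies which are trivial on the units. -/
def T_C1 : Prop :=
  ∀ (n : ℕ) (R : ℝ), 0 < R → ∃ c : ℝ, 0 < c ∧ ∀ (K : Type) [Field K] [NumberField K],
    Module.finrank ℚ K = n → ∃ X : Finset (InfinitePlace K → ℝ),
      (∀ ν ∈ X, ∑ v, (v.mult : ℝ) * ν v = 0 ∧ (∀ u : (𝓞 K)ˣ, ph ν (u : K) = 1) ∧
        ∀ v, |ν v| ≤ R) ∧ c * regulator K ≤ X.card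

/-- (C2) the characters with given frequencies. -/
def T_C2 : Prop :=
  ∀ (K : Type) [Field K] [NumberField K] (ν : InfinitePlace K → ℝ),
    ∑ v, (v.mult : ℝ) * ν v = 0 → (∀ u : (𝓞 K)ˣ, ph ν (u : K) = 1) →
    ∃ X : Finset (UHC K), (∀ χ ∈ X, χ.ν = ν) ∧ X.card = classNumber K

/-- (CH) the number of characters. -/
def T_CH : Prop :=
  ∀ (n : ℕ) (R : ℝ), 0 < R → ∃ c : ℝ, 0 < c ∧ ∀ (K : Type) [Field K] [NumberField K],
    Module.finrank ℚ K = n → ∃ X : Finset (UHC K), (∀ χ ∈ X, χ ∈ fam K R) ∧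
      c * (classNumber K * regulator K) ≤ X.card

/-- (FN) the family is finite. -/
def T_FN : Prop :=
  ∀ (K : Type) [Field K] [NumberField K] (R : ℝ), (fam K R).Finite

end Pool.Agent.H23.LA
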